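import Mathlib

open Filter

namespace Pool.Agent.Results.MP_34bddf_lc.NotMax

def uadd (F G : Ultrafilter ℕ+) : Ultrafilter ℕ+ := F.bind fun n => G.map (n + ·)

def umul (F G : Ultrafilter ℕ+) : Ultrafilter ℕ+ := F.bind fun n => G.map (n * ·)

def MAX : Set (Ultrafilter ℕ+) := {F | ∀ n : ℕ+, {m | n ∣ m} ∈ F}

def Gamma : Set (Ultrafilter ℕ+) := closure {F | uadd F F = F}

def IsIdeal (I : Set (Ultrafilter ℕ+)) : Prop :=
  I.Nonempty ∧ ∀ F ∈ I, ∀ G, umul G F ∈ I ∧ umul F G ∈ I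

def genIdeal (S : Set (Ultrafilter ℕ+)) : Set (Ultrafilter ℕ+) := ⋂₀ {I | IsIdeal I ∧ S ⊆ I}

theorem result : ∃ F ∈ MAX, F ∉ genIdeal Gamma := by
  let f : ℕ → ℕ+ := fun n => ⟨(n + 2).factorial, Nat.factorial_pos _⟩
  let I : Set (Ultrafilter ℕ+) := {F | ∀ A ∈ F, ∃ x ∈ A, ∃ y ∈ A, x + y ∈ A}
  have hI : ∀ F ∈ I, ∀ G, umul G F ∈ I ∧ umul F G ∈ I := by
    intro F hF G
    constructor
    · intro A hA
      obtain ⟨n, hn⟩ := G.nonempty_of_mem (s := {n | {m | n * m ∈ A} ∈ F}) hA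
      obtain ⟨x, hx, y, hy, hxy⟩ := hF _ hn
      exact ⟨_, hx, _, hy, by rw [← mul_add]; exact hxy⟩
    · intro A hA
      obtain ⟨x, hx, y, hy, hxy⟩ := hF {n | {m | n * m ∈ A} ∈ G} hA
      obtain ⟨m, h1, h2, h3⟩ := G.nonempty_of_mem (inter_mem hx (inter_mem hy hxy))
      exact ⟨_, h1, _, h2, by rw [← add_mul]; exact h3⟩
  have hG : Gamma ⊆ I := by
    intro F hF A hA
    obtain ⟨G, h1, h2⟩ := mem_closure_iff.1 hF _ (ultrafilter_isOpen_basic A) hA
    have h3 : A ∈ uadd G G := by rw [h2]; exact h1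
    obtain ⟨x, hx, hx'⟩ := G.nonempty_of_mem (inter_mem h1 (show {n | {m | n + m ∈ A} ∈ G} ∈ G from h3))
    obtain ⟨y, hy, hy'⟩ := G.nonempty_of_mem (inter_mem h1 hx')
    exact ⟨x, hx, y, hy, hy'⟩
  refine ⟨(hyperfilter ℕ).map f, fun n => ?_, fun h => ?_⟩
  · refine mem_of_superset (f := (hyperfilter ℕ : Filter ℕ))
      (Nat.hyperfilter_le_atTop (eventually_ge_atTop (n : ℕ))) fun k hk => ?_
    exact PNat.dvd_iff.2 (Nat.dvd_factorial n.pos (le_trans hk (Nat.le_add_right _ _)))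
  · by_cases hne : I.Nonempty
    · obtain ⟨_, ⟨a, rfl⟩, _, ⟨b, rfl⟩, c, hc⟩ := h I ⟨⟨hne, hI⟩, hG⟩ _ range_mem_map
      have hc' : (c + 2).factorial = (a + 2).factorial + (b + 2).factorial := congrArg PNat.val hc
      have ha := Nat.factorial_pos (a + 2)
      have hb := Nat.factorial_pos (b + 2)
      have h1 : a + 2 < c + 2 := (Nat.factorial_lt (by omega)).1 (by omega)
      have h2 : b + 2 < c + 2 := (Nat.factorial_lt (by omega)).1 (by omega)
      have h3 := Nat.factorial_le (show a + 2 ≤ c + 1 by omega)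
      have h4 := Nat.factorial_le (show b + 2 ≤ c + 1 by omega)
      rw [Nat.factorial_succ (c + 1)] at hc'
      have h5 := Nat.factorial_pos (c + 1)
      have : 1 ≤ c := by omega
      nlinarith
    · letI := @Ultrafilter.addSemigroup ℕ+ _
      obtain ⟨G, hG'⟩ := exists_idempotent_of_compact_t2_of_continuous_add_left
        (@Ultrafilter.continuous_add_left ℕ+ _)
      refine hne ⟨G, hG (subset_closure ?_)⟩
      refine Eq.trans ?_ hG'
      ext A
      exact (Ultrafilter.eventually_add G G (· ∈ A)).symm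

end Pool.Agent.Results.MP_34bddf_lc.NotMax
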